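import Pool.Agent.GRC.Finish

/-!
# Finiteness of Calabi-Yau zero loci of multilinear forms in products of Grassmannians
-/

set_option autoImplicit false

namespace Pool.Agent.Results.MP_3d72f2_ag.GrassmannForms

open Pool.Agent.GRC

/-- For every `n` there are finitely many topological spaces such that every smooth connected
Calabi-Yau variety of dimension `n` that is the zero locus of a transversal system of multilinear
forms (of arbitrary symmetry types, each with at least two arguments) in a product of any number of
Grassmannians of subspaces of at most half dimension is homeomorphic to one of them. -/
theorem result (n : ℕ) :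
    ∃ (c : ℕ) (Y : Fin c → Type) (_ : ∀ i, TopologicalSpace (Y i)),
      ∀ (I J : Type) [Fintype I] [Fintype J] (S : Sys I J) (t : S.Eqs), IsCY S n t →
        ∃ i, Nonempty (S.X t ≃ₜ Y i) :=
  main n

end Pool.Agent.Results.MP_3d72f2_ag.GrassmannForms
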