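import Pool.Agent.P2N.Main

/-!
# MP_3d72f2_ag, partial answer to Q1

For every `n` there are only finitely many homeomorphism types of smooth connected
`n`-dimensional projective varieties `X` in `P ^ (2 * n)` such that some positive power of the
canonical bundle of `X` is trivial.

Definitions: Pool/Agent/P2N/Defs.lean (`Cone`, `dif`, `Tan`, `SmoothCodim`, `SameLine`, `PSpace`,
`IsCanPow`, `TorsionCanonical`).
-/

set_option autoImplicit false

namespace Pool.Agent.Results.MP_3d72f2_ag.MiddleDimension

open Pool.Agent.P2N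

theorem result (n : ℕ) : ∃ (r : ℕ) (S : Fin r → Type) (_ : ∀ s, TopologicalSpace (S s)),
    ∀ (k : ℕ) (e : Fin k → ℕ) (F : Fin k → MvPolynomial (Fin (2 * n + 1)) ℂ),
      (∀ i, (F i).IsHomogeneous (e i)) → SmoothCodim F n → ConnectedSpace (PSpace (Cone F)) →
      TorsionCanonical F n → ∃ s, Nonempty (PSpace (Cone F) ≃ₜ S s) :=
  main n

end Pool.Agent.Results.MP_3d72f2_ag.MiddleDimension
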