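import Pool.Agent.NR.Main

/-!
# MP_3d72f2_ag, partial answer to Q1

For all `n`, `s` there are only finitely many homeomorphism types of smooth connected Calabi-Yau
manifolds `X` of dimension `n` of the following kind. `X` is a complete intersection of `c`
hypersurfaces (`c` arbitrary) in a smooth projective toric variety `V` of dimension `n + c` with
arbitrarily many rays; the rays `ρ` are distributed among the equations by a map `e`, and the
equation `j` is a section of `O(∑_{e ρ = j} D_ρ)` (so the sum of the classes is `-K_V`); there is a
finer partition `g` of the rays all of whose classes have nef divisors (so `e` is a nef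
partition). The assumption is that there are many classes: at least `2 * c - s` (case `W = ∅`).

More generally let `W` be a set of rays which are alone in their parts; then the number of the
classes which contain a ray `ρ ∉ W` such that `W ∪ {ρ}` spans a cone has to be at least
`2 * (c - |W|) - s`.

Definitions: Pool/Agent/TF/Defs.lean (`Fan`, `Pt`, `InG`, `act`, `IsForm`, `Cone`, `Smooth`,
`SameOrbit`, `XSpace`), Pool/Agent/NR/Defs.lean (`pr`, `deg`, `Regular`, `Projective`, `Nef`, `IsCI`,
`IsNefRefinement`).
-/

set_option autoImplicit false

namespace Pool.Agent.Results.MP_3d72f2_ag.NefRefinement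

open Pool.Agent.TF Pool.Agent.NR

theorem result (n s : ℕ) :
    ∃ (r : ℕ) (S : Fin r → Type) (_ : ∀ t, TopologicalSpace (S t)),
      ∀ (k c N m : ℕ) (F : Fan (Fin k) N) (e : Fin k → Fin c) (g : Fin k → Fin m)
        (W : Set (Fin k)) (f : Fin c → MvPolynomial (Fin k) ℂ), N = n + c → IsCI F e f →
        IsNefRefinement F e g → (∀ w ∈ W, ∀ ρ, e ρ = e w → ρ = w) →
        2 * c ≤ s + 2 * W.ncard + {i | ∃ ρ, g ρ = i ∧ ρ ∉ W ∧ insert ρ W ∈ F.cones}.ncard →
        ∃ t, Nonempty (XSpace F f ≃ₜ S t) :=
  main n s

end Pool.Agent.Results.MP_3d72f2_ag.NefRefinement
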