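import Pool.Agent.TF.Main

/-!
# MP_3d72f2_ag, partial answer to Q1

For all `n`, `c` there are only finitely many homeomorphism types of `n`-dimensional quasi-smooth
complete intersections of codimension `c` with trivial canonical class in complete simplicial
toric varieties of dimension `n + c` (arbitrary fans, no positivity of the divisors), such that all
the intersections of some of the hypersurfaces are quasi-smooth and connected.

Definitions: Pool/Agent/TF/Defs.lean (`Fan`, `Pt`, `InG`, `act`, `IsForm`, `Cone`, `Smooth`,
`SameOrbit`, `XSpace`, `IsVar`).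
-/

set_option autoImplicit false

namespace Pool.Agent.Results.MP_3d72f2_ag.ToricAmbient

open Pool.Agent.TF

theorem result (n c : ℕ) : ∃ (r : ℕ) (S : Fin r → Type) (_ : ∀ s, TopologicalSpace (S s)),
    ∀ (k : ℕ) (F : Fan (Fin k) (n + c)) (d : Fin c → Fin k → ℤ)
      (f : Fin c → MvPolynomial (Fin k) ℂ),
      IsVar F d f → ∃ s, Nonempty (XSpace F f ≃ₜ S s) :=
  main n c

end Pool.Agent.Results.MP_3d72f2_ag.ToricAmbient
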